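import Pool.Agent.Lib.MP_675adf_co.Main

/-!
# Degree-3 spanning trees in the plane: rho_3 is at most (1 + sqrt 3)/2 = 1.36603

For every finite set P of at least two points of the Euclidean plane there is a spanning tree of
maximum degree at most 3 whose length is at most (1 + sqrt 3)/2 times the length of a minimum
spanning tree of P.  The best bound known before is 1.402 (Chan).
-/

namespace Pool.Agent.Results.MP_675adf_co.DegreeThreeBound

open Classical in
/-- total Euclidean length of the edges of a graph T whose vertices are the points of P -/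
noncomputable def treeLength (P : Finset (EuclideanSpace ℝ (Fin 2))) (T : SimpleGraph P) : ℝ :=
  ∑ e ∈ Finset.univ.filter (fun e : Sym2 P => e ∈ T.edgeSet),
    Sym2.lift ⟨fun a b : P => dist (a : EuclideanSpace ℝ (Fin 2)) b, fun _ _ => dist_comm _ _⟩ e

/-- tau(P): the minimum length of a spanning tree of P -/
noncomputable def tau (P : Finset (EuclideanSpace ℝ (Fin 2))) : ℝ :=
  sInf {w | ∃ T : SimpleGraph P, T.IsTree ∧ w = treeLength P T}

/-- tau_k(P): the minimum length of a spanning tree of P in which every vertex has degree at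
most k -/
noncomputable def tauDeg (k : ℕ) (P : Finset (EuclideanSpace ℝ (Fin 2))) : ℝ :=
  sInf {w | ∃ T : SimpleGraph P, T.IsTree ∧ (∀ v, (T.neighborSet v).ncard ≤ k) ∧
    w = treeLength P T}

/-- rho_k: the supremum of tau_k(P)/tau(P) over all finite P with at least two points -/
noncomputable def rho (k : ℕ) : ℝ :=
  sSup {x | ∃ P : Finset (EuclideanSpace ℝ (Fin 2)), 2 ≤ P.card ∧ x = tauDeg k P / tau P}

/-- Every finite planar point set P with at least two points has a spanning tree of maximum degree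
at most 3 of length at most (1 + sqrt 3)/2 times tau(P); in particular rho_3 is at most
(1 + sqrt 3)/2. -/
theorem result :
    (∀ P : Finset (EuclideanSpace ℝ (Fin 2)), 2 ≤ P.card →
      ∃ H : SimpleGraph P, H.IsTree ∧ (∀ v, (H.neighborSet v).ncard ≤ 3) ∧
        treeLength P H ≤ (1 + Real.sqrt 3) / 2 * tau P) ∧
    rho 3 ≤ (1 + Real.sqrt 3) / 2 := by
  have key : ∀ P : Finset (EuclideanSpace ℝ (Fin 2)), 2 ≤ P.card →
      ∃ H : SimpleGraph P, H.IsTree ∧ (∀ v, (H.neighborSet v).ncard ≤ 3) ∧
        ∀ T' : SimpleGraph P, T'.IsTree → treeLength P H ≤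
          (1 + Real.sqrt 3) / 2 * treeLength P T' := by
    intro P hP
    have hne : Nonempty P := by
      obtain ⟨x, hx⟩ := Finset.card_pos.mp (by omega : 0 < P.card)
      exact ⟨⟨x, hx⟩⟩
    let pos : P → ℂ := fun p => ⟨(p : EuclideanSpace ℝ (Fin 2)) 0, (p : EuclideanSpace ℝ (Fin 2)) 1⟩
    have hdist : ∀ a b : P, ‖pos a - pos b‖ = dist (a : EuclideanSpace ℝ (Fin 2)) b := by
      intro a b
      rw [EuclideanSpace.dist_eq, Complex.norm_eq_sqrt_sq_add_sq]
      congr 1
      simp [pos, Fin.sum_univ_two, Real.dist_eq, sq_abs]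
    have hinj : Function.Injective pos := by
      intro a b hab
      have : dist (a : EuclideanSpace ℝ (Fin 2)) b = 0 := by rw [← hdist, hab, sub_self, norm_zero]
      exact Subtype.ext (dist_eq_zero.mp this)
    have hgw : ∀ (hd : ∀ a b : P, ‖pos a - pos b‖ = ‖pos b - pos a‖) (T : SimpleGraph P),
        T3.gw (fun a b => ‖pos a - pos b‖) hd T = treeLength P T := by
      intro hd T
      unfold T3.gw treeLength T3.elen
      refine Finset.sum_congr rfl fun e _ => ?_
      induction e using Sym2.ind with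
      | _ a b => simp [Sym2.lift_mk, hdist]
    obtain ⟨H, hH, hdeg, hw⟩ := T3.main_fin pos hinj (fun a b => norm_sub_rev _ _)
    refine ⟨H, hH, hdeg, fun T' hT' => ?_⟩
    have := hw T' hT'
    rwa [hgw, hgw] at this
  have hnn : ∀ (P : Finset (EuclideanSpace ℝ (Fin 2))) (T : SimpleGraph P), 0 ≤ treeLength P T := by
    intro P T
    unfold treeLength
    refine Finset.sum_nonneg fun e _ => ?_
    induction e using Sym2.ind with
    | _ a b => simp [Sym2.lift_mk, dist_nonneg]
  have hfin : ∀ (P : Finset (EuclideanSpace ℝ (Fin 2))), 2 ≤ P.card →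
      ∃ T : SimpleGraph P, T.IsTree ∧ tau P = treeLength P T := by
    intro P hP
    obtain ⟨H, hH, -, -⟩ := key P hP
    have hne : {w | ∃ T : SimpleGraph P, T.IsTree ∧ w = treeLength P T}.Nonempty :=
      ⟨_, H, hH, rfl⟩
    have hf : {w | ∃ T : SimpleGraph P, T.IsTree ∧ w = treeLength P T}.Finite := by
      refine (Set.finite_range (fun T : SimpleGraph P => treeLength P T)).subset ?_
      rintro w ⟨T, -, rfl⟩
      exact ⟨T, rfl⟩
    exact hne.csInf_mem hf
  have h1 : ∀ P : Finset (EuclideanSpace ℝ (Fin 2)), 2 ≤ P.card →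
      ∃ H : SimpleGraph P, H.IsTree ∧ (∀ v, (H.neighborSet v).ncard ≤ 3) ∧
        treeLength P H ≤ (1 + Real.sqrt 3) / 2 * tau P := by
    intro P hP
    obtain ⟨H, hH, hdeg, hw⟩ := key P hP
    obtain ⟨T, hT, hTw⟩ := hfin P hP
    exact ⟨H, hH, hdeg, by rw [hTw]; exact hw T hT⟩
  refine ⟨h1, ?_⟩
  unfold rho
  refine Real.sSup_le ?_ (by positivity)
  rintro x ⟨P, hP, rfl⟩
  obtain ⟨H, hH, hdeg, hw⟩ := h1 P hP
  have hb : tauDeg 3 P ≤ treeLength P H := by
    refine csInf_le ⟨0, ?_⟩ ⟨H, hH, hdeg, rfl⟩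
    rintro w ⟨T, -, -, rfl⟩
    exact hnn P T
  have ht0 : 0 ≤ tau P := by
    obtain ⟨T, hT, hTw⟩ := hfin P hP
    rw [hTw]; exact hnn P T
  exact div_le_of_le_mul₀ ht0 (by positivity) (le_trans hb hw)

end Pool.Agent.Results.MP_675adf_co.DegreeThreeBound
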