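import Pool.Agent.Lib.MP_675adf_co_LT.Fin

/-!
# Degree-3 spanning trees of lattice point sets: the conjectured constant is exact there

Let P be a finite set of points of the plane, at least two, contained in a translate of a lattice
(an additive subgroup) whose nonzero vectors have length at least 1, and connected by steps of
length 1.  Then tau_3(P) is at most (3 + sqrt 2)/4 times tau(P), the conjectured value of rho_3,
and this is attained.  For the lattice generated by unit vectors u, v with inner product between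
0 and 1/2 the maximum of tau_3(P)/tau(P) is exactly (3 + |u - v|)/4.
-/

namespace Pool.Agent.Results.MP_675adf_co.LatticePointSets

open Classical in
/-- total Euclidean length of the edges of a graph T whose vertices are the points of P -/
noncomputable def treeLength (P : Finset (EuclideanSpace ℝ (Fin 2))) (T : SimpleGraph P) : ℝ :=
  ∑ e ∈ Finset.univ.filter (fun e : Sym2 P => e ∈ T.edgeSet),
    Sym2.lift ⟨fun a b : P => dist (a : EuclideanSpace ℝ (Fin 2)) b, fun _ _ => dist_comm _ _⟩ e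

/-- tau(P): the minimum length of a spanning tree of P -/
noncomputable def tau (P : Finset (EuclideanSpace ℝ (Fin 2))) : ℝ :=
  sInf {w | ∃ T : SimpleGraph P, T.IsTree ∧ w = treeLength P T}

/-- tau_k(P): the minimum length of a spanning tree of P in which every vertex has degree at
most k -/
noncomputable def tauDeg (k : ℕ) (P : Finset (EuclideanSpace ℝ (Fin 2))) : ℝ :=
  sInf {w | ∃ T : SimpleGraph P, T.IsTree ∧ (∀ v, (T.neighborSet v).ncard ≤ k) ∧
    w = treeLength P T}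

/-- the graph on P joining the points at distance 1 -/
def unitGraph (P : Finset (EuclideanSpace ℝ (Fin 2))) : SimpleGraph P :=
  SimpleGraph.fromRel fun p q => dist (p : EuclideanSpace ℝ (Fin 2)) q = 1

/-- P lies in a translate of a lattice with all nonzero vectors of length at least 1 and is
connected by steps of length 1 -/
def LatticeConnected (P : Finset (EuclideanSpace ℝ (Fin 2))) : Prop :=
  (∃ Λ : AddSubgroup (EuclideanSpace ℝ (Fin 2)), (∀ x ∈ Λ, x ≠ 0 → 1 ≤ ‖x‖) ∧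
    ∀ p ∈ P, ∀ q ∈ P, p - q ∈ Λ) ∧ (unitGraph P).Connected

/-- P lies in a translate of the lattice of the integer combinations of u and v and is connected
by steps of length 1 -/
def GridConnected (u v : EuclideanSpace ℝ (Fin 2)) (P : Finset (EuclideanSpace ℝ (Fin 2))) :
    Prop :=
  (∃ a : EuclideanSpace ℝ (Fin 2), ∀ p ∈ P, ∃ m n : ℤ, p = a + ((m : ℝ) • u + (n : ℝ) • v)) ∧
    (unitGraph P).Connected

open MP_675adf_co_LT in
theorem len_eq (P : Finset (EuclideanSpace ℝ (Fin 2))) (T : SimpleGraph P) :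
    treeLength P T = MP_675adf_co_LT.treeLength P T := rfl

open MP_675adf_co_LT in
/-- tau and tau_3 of a grid set -/
theorem grid {a u v : EuclideanSpace ℝ (Fin 2)} (hu : ‖u‖ = 1) (hv : ‖v‖ = 1)
    (h0 : 0 ≤ inner ℝ u v) (h1 : inner ℝ u v ≤ 1 / 2) {P : Finset (EuclideanSpace ℝ (Fin 2))}
    (hP : ∀ p ∈ P, ∃ x : ℤ × ℤ, ph a u v x = p) (hc : (unitGraph P).Connected) :
    tau P = P.card - 1 ∧ (∃ T : SimpleGraph P, T.IsTree ∧ (∀ p, (T.neighborSet p).ncard ≤ 3) ∧
      treeLength P T ≤ (3 + ‖u - v‖) / 4 * tau P) ∧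
      tauDeg 3 P ≤ (3 + ‖u - v‖) / 4 * tau P := by
  have hge : ∀ T : SimpleGraph P, T.IsTree → (P.card : ℝ) - 1 ≤ treeLength P T := fun T hT => by
    have := tree_ge (class_ge hu hv h0 h1 hP) hT
    rw [len_eq]
    linarith
  obtain ⟨T0, hT0, hT1⟩ := unit_tree (P := P) hc
  have htau : tau P = P.card - 1 := by
    refine IsLeast.csInf_eq ⟨⟨T0, hT0, ?_⟩, ?_⟩
    · rw [len_eq]
      linarith
    · rintro w ⟨T, hT, rfl⟩
      exact hge T hT
  obtain ⟨T, hT, hdeg, hlen⟩ := upper hu hv h0 h1 hP hc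
  rw [← htau] at hlen
  refine ⟨htau, ⟨T, hT, hdeg, hlen⟩, ?_⟩
  have hle : tauDeg 3 P ≤ treeLength P T := by
    refine csInf_le ⟨(P.card : ℝ) - 1, ?_⟩ ⟨T, hT, hdeg, rfl⟩
    rintro w ⟨T', hT', -, rfl⟩
    exact hge T' hT'
  exact hle.trans hlen

open MP_675adf_co_LT in
/-- the ratio for the five points 0, u, v, -u, -v -/
theorem plus_ratio {u v : EuclideanSpace ℝ (Fin 2)} (hu : ‖u‖ = 1) (hv : ‖v‖ = 1)
    (h0 : 0 ≤ inner ℝ u v) (h1 : inner ℝ u v ≤ 1 / 2) :
    (3 + ‖u - v‖) / 4 = tauDeg 3 (plus u v) / tau (plus u v) := by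
  have hP : ∀ p ∈ plus u v, ∃ x : ℤ × ℤ, ph 0 u v x = p := fun p hp => by
    obtain ⟨x, -, hx⟩ := mem_plus.1 hp
    exact ⟨x, hx⟩
  obtain ⟨htau, ⟨T, hT, hdeg, -⟩, hle⟩ := grid hu hv h0 h1 hP (plus_conn hu hv h0 h1)
  have h4 : tau (plus u v) = 4 := by
    rw [htau, plus_card hu hv h0 h1]
    norm_num
  have h5 : 3 + ‖u - v‖ ≤ tauDeg 3 (plus u v) := by
    refine le_csInf ⟨_, T, hT, hdeg, rfl⟩ ?_
    rintro w ⟨T', hT', hdeg', rfl⟩
    exact plus_ge hu hv h0 h1 hT' hdeg'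
  rw [h4] at hle ⊢
  have h6 : tauDeg 3 (plus u v) = 3 + ‖u - v‖ := by linarith
  rw [h6]

/-- The maximum of tau_3(P)/tau(P) over all lattice sets connected by shortest steps is
(3 + sqrt 2)/4, and for the lattice generated by u and v it is (3 + |u - v|)/4. -/
theorem result :
    IsGreatest {x | ∃ P : Finset (EuclideanSpace ℝ (Fin 2)), 2 ≤ P.card ∧ LatticeConnected P ∧
      x = tauDeg 3 P / tau P} ((3 + Real.sqrt 2) / 4) ∧
    ∀ u v : EuclideanSpace ℝ (Fin 2), ‖u‖ = 1 → ‖v‖ = 1 → 0 ≤ inner ℝ u v →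
      inner ℝ u v ≤ 1 / 2 →
      IsGreatest {x | ∃ P : Finset (EuclideanSpace ℝ (Fin 2)), 2 ≤ P.card ∧
        GridConnected u v P ∧ x = tauDeg 3 P / tau P} ((3 + ‖u - v‖) / 4) := by
  have hroot : ∀ u v : EuclideanSpace ℝ (Fin 2), ‖u‖ = 1 → ‖v‖ = 1 → 0 ≤ inner ℝ u v →
      ‖u - v‖ ≤ Real.sqrt 2 := by
    intro u v hu hv h0
    refine Real.le_sqrt_of_sq_le ?_
    rw [norm_sub_sq_real, hu, hv]
    linarith
  refine ⟨⟨?_, ?_⟩, ?_⟩
  · obtain ⟨u, hu⟩ : ∃ u : EuclideanSpace ℝ (Fin 2), u = !₂[1, 0] := ⟨_, rfl⟩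
    obtain ⟨v, hv⟩ : ∃ v : EuclideanSpace ℝ (Fin 2), v = !₂[0, 1] := ⟨_, rfl⟩
    have hu1 : ‖u‖ = 1 := by
      rw [hu, EuclideanSpace.norm_eq, Fin.sum_univ_two]
      simp
    have hv1 : ‖v‖ = 1 := by
      rw [hv, EuclideanSpace.norm_eq, Fin.sum_univ_two]
      simp
    have huv : inner ℝ u v = 0 := by
      rw [hu, hv]
      simp [PiLp.inner_apply, Fin.sum_univ_two]
    have hd : ‖u - v‖ = Real.sqrt 2 := by
      have h3 : ‖u - v‖ ^ 2 = 2 := by
        rw [norm_sub_sq_real, hu1, hv1, huv]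
        norm_num
      rw [← h3, Real.sqrt_sq (norm_nonneg _)]
    refine ⟨MP_675adf_co_LT.plus u v, ?_, ⟨?_, ?_⟩, ?_⟩
    · rw [MP_675adf_co_LT.plus_card hu1 hv1 huv.ge (by rw [huv]; norm_num)]
      norm_num
    · exact MP_675adf_co_LT.plus_diff hu1 hv1 huv.ge (by rw [huv]; norm_num)
    · exact MP_675adf_co_LT.plus_conn hu1 hv1 huv.ge (by rw [huv]; norm_num)
    · rw [← plus_ratio hu1 hv1 huv.ge (by rw [huv]; norm_num), hd]
  · rintro x ⟨P, h2, ⟨⟨Λ, hΛ, hP⟩, hc⟩, rfl⟩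
    obtain ⟨a, u, v, hu, hv, h0, h1, hx⟩ := MP_675adf_co_LT.exists_basis hΛ hP hc h2
    obtain ⟨htau, -, hle⟩ := grid hu hv h0 h1 hx hc
    have h3 := hroot u v hu hv h0
    have h4 : (0 : ℝ) < tau P := by
      rw [htau]
      have : (2 : ℝ) ≤ P.card := by exact_mod_cast h2
      linarith
    rw [div_le_iff₀ h4]
    exact hle.trans (mul_le_mul_of_nonneg_right (by linarith) h4.le)
  · intro u v hu hv h0 h1
    refine ⟨⟨MP_675adf_co_LT.plus u v, ?_, ⟨⟨0, fun p hp => ?_⟩, ?_⟩, plus_ratio hu hv h0 h1⟩, ?_⟩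
    · rw [MP_675adf_co_LT.plus_card hu hv h0 h1]
      norm_num
    · obtain ⟨x, -, hx⟩ := MP_675adf_co_LT.mem_plus.1 hp
      exact ⟨x.1, x.2, hx.symm⟩
    · exact MP_675adf_co_LT.plus_conn hu hv h0 h1
    · rintro x ⟨P, h2, ⟨⟨a, hP⟩, hc⟩, rfl⟩
      have hx : ∀ p ∈ P, ∃ x : ℤ × ℤ, MP_675adf_co_LT.ph a u v x = p := fun p hp => by
        obtain ⟨m, n, h⟩ := hP p hp
        exact ⟨(m, n), h.symm⟩
      obtain ⟨htau, -, hle⟩ := grid hu hv h0 h1 hx hc
      have h4 : (0 : ℝ) < tau P := by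
        rw [htau]
        have : (2 : ℝ) ≤ P.card := by exact_mod_cast h2
        linarith
      rwa [div_le_iff₀ h4]

end Pool.Agent.Results.MP_675adf_co.LatticePointSets
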