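import Pool.Agent.Lib.MP_675adf_co_SB.Final
import Pool.Agent.Lib.MP_675adf_co_LT.Fin

/-!
# Degree-3 spanning trees: the conjectured constant when the branching is sparse

The conjectured value (3 + sqrt 2)/4 of rho_3 is the maximum of tau_3(P)/tau(P) over all finite
planar P that have a minimum spanning tree with sparse branching (all degrees at most five, no two
vertices of degree at least four adjacent, and the vertices of degree at most three have room for
the edges that may be moved to them), and over all P with at most six points.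
-/

namespace Pool.Agent.Results.MP_675adf_co.SparseBranching

open Classical in
/-- total Euclidean length of the edges of a graph T whose vertices are the points of P -/
noncomputable def treeLength (P : Finset (EuclideanSpace ℝ (Fin 2))) (T : SimpleGraph P) : ℝ :=
  ∑ e ∈ Finset.univ.filter (fun e : Sym2 P => e ∈ T.edgeSet),
    Sym2.lift ⟨fun a b : P => dist (a : EuclideanSpace ℝ (Fin 2)) b, fun _ _ => dist_comm _ _⟩ e

/-- tau(P): the minimum length of a spanning tree of P -/
noncomputable def tau (P : Finset (EuclideanSpace ℝ (Fin 2))) : ℝ :=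
  sInf {w | ∃ T : SimpleGraph P, T.IsTree ∧ w = treeLength P T}

/-- tau_k(P): the minimum length of a spanning tree of P in which every vertex has degree at
most k -/
noncomputable def tauDeg (k : ℕ) (P : Finset (EuclideanSpace ℝ (Fin 2))) : ℝ :=
  sInf {w | ∃ T : SimpleGraph P, T.IsTree ∧ (∀ v, (T.neighborSet v).ncard ≤ k) ∧
    w = treeLength P T}

/-- the neighbours v of w that have degree at least four and another neighbour at least as far
from v as w -/
def pressing (P : Finset (EuclideanSpace ℝ (Fin 2))) (T : SimpleGraph P) (w : P) : Set P :=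
  {v | T.Adj v w ∧ 4 ≤ (T.neighborSet v).ncard ∧ ∃ y, T.Adj v y ∧ y ≠ w ∧
    dist (v : EuclideanSpace ℝ (Fin 2)) w ≤ dist (v : EuclideanSpace ℝ (Fin 2)) y}

/-- all degrees are at most five, no two vertices of degree at least four are adjacent, and for
every vertex of degree at most three the degree plus the number of pressing neighbours is at most
three -/
def Sparse (P : Finset (EuclideanSpace ℝ (Fin 2))) (T : SimpleGraph P) : Prop :=
  (∀ v, (T.neighborSet v).ncard ≤ 5) ∧
  (∀ v w, 4 ≤ (T.neighborSet v).ncard → 4 ≤ (T.neighborSet w).ncard → ¬ T.Adj v w) ∧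
  ∀ w, (T.neighborSet w).ncard ≤ 3 → (T.neighborSet w).ncard + (pressing P T w).ncard ≤ 3

open Classical in
/-- the total length of the edges of T that have an end of degree at least four -/
noncomputable def branchLength (P : Finset (EuclideanSpace ℝ (Fin 2))) (T : SimpleGraph P) : ℝ :=
  ∑ e ∈ Finset.univ.filter (fun e : Sym2 P => e ∈ T.edgeSet ∧
      ∃ v ∈ e, 4 ≤ (T.neighborSet v).ncard),
    Sym2.lift ⟨fun a b : P => dist (a : EuclideanSpace ℝ (Fin 2)) b, fun _ _ => dist_comm _ _⟩ e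

theorem len_nonneg (P : Finset (EuclideanSpace ℝ (Fin 2))) (T : SimpleGraph P) :
    0 ≤ treeLength P T := by
  unfold treeLength
  refine Finset.sum_nonneg fun e _ => ?_
  induction e using Sym2.ind with
  | _ a b => simp [Sym2.lift_mk, dist_nonneg]

theorem tau_le {P : Finset (EuclideanSpace ℝ (Fin 2))} {T : SimpleGraph P} (hT : T.IsTree) :
    tau P ≤ treeLength P T := by
  refine csInf_le ⟨0, ?_⟩ ⟨T, hT, rfl⟩
  rintro w ⟨T', -, rfl⟩
  exact len_nonneg P T'

theorem tauDeg_le {P : Finset (EuclideanSpace ℝ (Fin 2))} {T : SimpleGraph P} (hT : T.IsTree)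
    (h3 : ∀ v, (T.neighborSet v).ncard ≤ 3) : tauDeg 3 P ≤ treeLength P T := by
  refine csInf_le ⟨0, ?_⟩ ⟨T, hT, h3, rfl⟩
  rintro w ⟨T', -, -, rfl⟩
  exact len_nonneg P T'

/-- the points as complex numbers -/
def pos (P : Finset (EuclideanSpace ℝ (Fin 2))) (p : P) : ℂ :=
  ⟨(p : EuclideanSpace ℝ (Fin 2)) 0, (p : EuclideanSpace ℝ (Fin 2)) 1⟩

theorem norm_pos_sub (P : Finset (EuclideanSpace ℝ (Fin 2))) (a b : P) :
    ‖pos P a - pos P b‖ = dist (a : EuclideanSpace ℝ (Fin 2)) b := by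
  rw [EuclideanSpace.dist_eq, Complex.norm_eq_sqrt_sq_add_sq]
  congr 1
  simp [pos, Fin.sum_univ_two, Real.dist_eq, sq_abs]

theorem pos_inj (P : Finset (EuclideanSpace ℝ (Fin 2))) : Function.Injective (pos P) := by
  intro a b hab
  have : dist (a : EuclideanSpace ℝ (Fin 2)) b = 0 := by
    rw [← norm_pos_sub, hab, sub_self, norm_zero]
  exact Subtype.ext (dist_eq_zero.mp this)

theorem gw_eq (P : Finset (EuclideanSpace ℝ (Fin 2)))
    (hd : ∀ a b : P, ‖pos P a - pos P b‖ = ‖pos P b - pos P a‖) (T : SimpleGraph P) :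
    T3.gw (fun a b => ‖pos P a - pos P b‖) hd T = treeLength P T := by
  unfold T3.gw treeLength T3.elen
  refine Finset.sum_congr rfl fun e _ => ?_
  induction e using Sym2.ind with
  | _ a b => simp [Sym2.lift_mk, norm_pos_sub]

theorem recs_eq (P : Finset (EuclideanSpace ℝ (Fin 2))) (T : SimpleGraph P) (w : P) :
    MP_675adf_co_SB.recs T (fun a b => ‖pos P a - pos P b‖) w = pressing P T w := by
  unfold MP_675adf_co_SB.recs pressing
  simp only [norm_pos_sub]

theorem branch_le (P : Finset (EuclideanSpace ℝ (Fin 2))) (T : SimpleGraph P) :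
    branchLength P T ≤ treeLength P T := by
  classical
  unfold branchLength treeLength
  refine Finset.sum_le_sum_of_subset_of_nonneg ?_ ?_
  · intro e he
    rw [Finset.mem_filter] at he ⊢
    exact ⟨he.1, he.2.1⟩
  · intro e _ _
    induction e using Sym2.ind with
    | _ a b => simp [Sym2.lift_mk, dist_nonneg]

/-- The upper bound. -/
theorem upper {P : Finset (EuclideanSpace ℝ (Fin 2))} {T : SimpleGraph P} (hT : T.IsTree)
    (hl : (∀ v, (T.neighborSet v).ncard ≤ 4) ∨ treeLength P T = tau P) (hS : Sparse P T) :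
    ∃ H : SimpleGraph P, H.IsTree ∧ (∀ v, (H.neighborSet v).ncard ≤ 3) ∧
      treeLength P H ≤ treeLength P T + (Real.sqrt 2 - 1) / 4 * branchLength P T := by
  classical
  obtain ⟨h5, hna, hr⟩ := hS
  obtain ⟨H, h1, h2, h3⟩ := MP_675adf_co_SB.main (pos P) (pos_inj P) (fun a b => norm_sub_rev _ _)
    T hT (hl.imp id fun hl T' hT' => by
      rw [gw_eq, gw_eq, hl]
      exact tau_le hT') h5 hna (fun w hw => by
        rw [recs_eq]
        exact hr w hw) (Finset.univ.filter fun v => 4 ≤ (T.neighborSet v).ncard)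
      (fun v => by simp) (Finset.univ.filter fun e : Sym2 P => e ∈ T.edgeSet ∧
        ∃ v ∈ e, 4 ≤ (T.neighborSet v).ncard) (fun e => by simp)
  refine ⟨H, h1, h2, ?_⟩
  rw [gw_eq, gw_eq] at h3
  refine h3.trans (le_of_eq ?_)
  unfold MP_675adf_co_SB.kk branchLength
  congr 2
  refine Finset.sum_congr ?_ fun e _ => ?_
  · ext e
    simp
  · unfold T3.elen
    induction e using Sym2.ind with
    | _ a b => simp [Sym2.lift_mk, norm_pos_sub]

/-- The upper bound for minimum spanning trees. -/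
theorem upper_min {P : Finset (EuclideanSpace ℝ (Fin 2))} {T : SimpleGraph P} (hT : T.IsTree)
    (hl : treeLength P T = tau P) (hS : Sparse P T) :
    ∃ H : SimpleGraph P, H.IsTree ∧ (∀ v, (H.neighborSet v).ncard ≤ 3) ∧
      treeLength P H ≤ (3 + Real.sqrt 2) / 4 * tau P := by
  obtain ⟨H, h1, h2, h3⟩ := upper hT (Or.inr hl) hS
  refine ⟨H, h1, h2, ?_⟩
  have h4 : 0 ≤ (Real.sqrt 2 - 1) / 4 := by linarith [MP_675adf_co_SB.sqrt2_bounds.1]
  have h5 := mul_le_mul_of_nonneg_left (branch_le P T) h4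
  rw [hl] at h3 h5
  linarith

/-- A minimum spanning tree. -/
theorem exists_min {P : Finset (EuclideanSpace ℝ (Fin 2))} (h : P.Nonempty) :
    ∃ T : SimpleGraph P, T.IsTree ∧ treeLength P T = tau P := by
  have : Nonempty P := h.to_subtype
  obtain ⟨T, hT, -, hmin⟩ := T3.exists_mst5 (pos P) (pos_inj P) fun a b => norm_sub_rev _ _
  refine ⟨T, hT, le_antisymm ?_ (tau_le hT)⟩
  refine le_csInf ⟨_, T, hT, rfl⟩ ?_
  rintro w ⟨T', hT', rfl⟩
  have := hmin T' hT'
  rwa [gw_eq, gw_eq] at this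

theorem sparse_of_card {P : Finset (EuclideanSpace ℝ (Fin 2))} (h : P.card ≤ 6)
    {T : SimpleGraph P} (hT : T.IsTree) : Sparse P T := by
  obtain ⟨h1, h2, h3⟩ := MP_675adf_co_SB.small (by rw [Fintype.card_coe]; exact h) T hT
    (fun a b => ‖pos P a - pos P b‖)
  exact ⟨h1, h2, fun w hw => by
    rw [← recs_eq]
    exact h3 w hw⟩

open MP_675adf_co_LT in
/-- The five points 0, u, -u, v, -v for orthonormal u, v. -/
theorem five : ∃ P : Finset (EuclideanSpace ℝ (Fin 2)), P.card = 5 ∧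
    (3 + Real.sqrt 2) / 4 = tauDeg 3 P / tau P := by
  obtain ⟨u, hu⟩ : ∃ u : EuclideanSpace ℝ (Fin 2), u = !₂[1, 0] := ⟨_, rfl⟩
  obtain ⟨v, hv⟩ : ∃ v : EuclideanSpace ℝ (Fin 2), v = !₂[0, 1] := ⟨_, rfl⟩
  have hu1 : ‖u‖ = 1 := by
    rw [hu, EuclideanSpace.norm_eq, Fin.sum_univ_two]
    simp
  have hv1 : ‖v‖ = 1 := by
    rw [hv, EuclideanSpace.norm_eq, Fin.sum_univ_two]
    simp
  have huv : inner ℝ u v = 0 := by
    rw [hu, hv]
    simp [PiLp.inner_apply, Fin.sum_univ_two]
  have hd : ‖u - v‖ = Real.sqrt 2 := by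
    have h3 : ‖u - v‖ ^ 2 = 2 := by
      rw [norm_sub_sq_real, hu1, hv1, huv]
      norm_num
    rw [← h3, Real.sqrt_sq (norm_nonneg _)]
  have h0 : 0 ≤ inner ℝ u v := huv.ge
  have h1 : inner ℝ u v ≤ 1 / 2 := by
    rw [huv]
    norm_num
  have hcard := plus_card hu1 hv1 h0 h1
  have hP : ∀ p ∈ plus u v, ∃ x : ℤ × ℤ, ph 0 u v x = p := fun p hp => by
    obtain ⟨x, -, hx⟩ := mem_plus.1 hp
    exact ⟨x, hx⟩
  have hlen : ∀ T : SimpleGraph (plus u v), treeLength _ T = MP_675adf_co_LT.treeLength _ T :=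
    fun T => rfl
  have hge : ∀ T : SimpleGraph (plus u v), T.IsTree → 4 ≤ treeLength _ T := fun T hT => by
    have := tree_ge (class_ge hu1 hv1 h0 h1 hP) hT
    rw [hcard] at this
    rw [hlen]
    norm_num at this
    linarith
  obtain ⟨T0, hT0, hT1⟩ := unit_tree (P := plus u v) (plus_conn hu1 hv1 h0 h1)
  have htau : tau (plus u v) = 4 := by
    refine IsLeast.csInf_eq ⟨⟨T0, hT0, ?_⟩, ?_⟩
    · rw [hlen]
      rw [hcard] at hT1
      norm_num at hT1
      linarith
    · rintro w ⟨T, hT, rfl⟩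
      exact hge T hT
  have hne : (plus u v).Nonempty := by
    rw [← Finset.card_pos, hcard]
    norm_num
  obtain ⟨T, hT, hl⟩ := exists_min hne
  obtain ⟨H, hH, h3, hlH⟩ := upper_min hT hl (sparse_of_card (by rw [hcard]; norm_num) hT)
  have h5 : 3 + ‖u - v‖ ≤ tauDeg 3 (plus u v) := by
    refine le_csInf ⟨_, H, hH, h3, rfl⟩ ?_
    rintro w ⟨T', hT', hdeg', rfl⟩
    exact plus_ge hu1 hv1 h0 h1 hT' hdeg'
  have h6 := tauDeg_le hH h3
  rw [htau] at hlH
  rw [hd] at h5
  refine ⟨plus u v, hcard, ?_⟩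
  rw [htau]
  linarith

/-- A sufficient condition. -/
theorem sparse_of_far {P : Finset (EuclideanSpace ℝ (Fin 2))} {T : SimpleGraph P}
    (h5 : ∀ v, (T.neighborSet v).ncard ≤ 5)
    (h2 : ∀ v w, 4 ≤ (T.neighborSet v).ncard → T.Adj v w → (T.neighborSet w).ncard ≤ 2)
    (hd : ∀ v v' w, 4 ≤ (T.neighborSet v).ncard → 4 ≤ (T.neighborSet v').ncard → T.Adj v w →
      T.Adj v' w → v = v') : Sparse P T := by
  refine ⟨h5, fun v w hv hw h => ?_, fun w hw => ?_⟩
  · have := h2 v w hv h
    omega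
  · rcases Set.eq_empty_or_nonempty (pressing P T w) with h | ⟨v, hv⟩
    · rw [h, Set.ncard_empty]
      omega
    · have h3 := h2 v w hv.2.1 hv.1
      have h4 : (pressing P T w).ncard ≤ 1 := by
        rw [Set.ncard_le_one (Set.toFinite _)]
        intro x hx y hy
        exact hd x y w hx.2.1 hy.2.1 hx.1 hy.1
      omega

/-- Sparse trees; moving edges at the vertices of degree at least four; the maximum of tau_3(P)/tau(P) over all
P with a minimum spanning tree with sparse branching is (3 + sqrt 2)/4, and also over all P with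
at most six points. -/
theorem result :
    (∀ (P : Finset (EuclideanSpace ℝ (Fin 2))) (T : SimpleGraph P),
      (∀ v, (T.neighborSet v).ncard ≤ 5) →
      (∀ v w, 4 ≤ (T.neighborSet v).ncard → T.Adj v w → (T.neighborSet w).ncard ≤ 2) →
      (∀ v v' w, 4 ≤ (T.neighborSet v).ncard → 4 ≤ (T.neighborSet v').ncard → T.Adj v w →
        T.Adj v' w → v = v') → Sparse P T) ∧
    (∀ (P : Finset (EuclideanSpace ℝ (Fin 2))) (T : SimpleGraph P), T.IsTree → Sparse P T →
      (∀ v, (T.neighborSet v).ncard ≤ 4) ∨ treeLength P T = tau P →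
      (∃ H : SimpleGraph P, H.IsTree ∧ (∀ v, (H.neighborSet v).ncard ≤ 3) ∧
        treeLength P H ≤ treeLength P T + (Real.sqrt 2 - 1) / 4 * branchLength P T) ∧
      branchLength P T ≤ treeLength P T) ∧
    IsGreatest {x | ∃ P : Finset (EuclideanSpace ℝ (Fin 2)), 2 ≤ P.card ∧
      (∃ T : SimpleGraph P, T.IsTree ∧ treeLength P T = tau P ∧ Sparse P T) ∧
      x = tauDeg 3 P / tau P} ((3 + Real.sqrt 2) / 4) ∧
    IsGreatest {x | ∃ P : Finset (EuclideanSpace ℝ (Fin 2)), 2 ≤ P.card ∧ P.card ≤ 6 ∧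
      x = tauDeg 3 P / tau P} ((3 + Real.sqrt 2) / 4) := by
  have hb : ∀ (P : Finset (EuclideanSpace ℝ (Fin 2))) (T : SimpleGraph P), T.IsTree →
      treeLength P T = tau P → Sparse P T → tauDeg 3 P / tau P ≤ (3 + Real.sqrt 2) / 4 := by
    intro P T hT hl hS
    obtain ⟨H, h1, h2, h3⟩ := upper_min hT hl hS
    exact div_le_of_le_mul₀ (hl ▸ len_nonneg P T) (by positivity) ((tauDeg_le h1 h2).trans h3)
  obtain ⟨P5, hc, hr⟩ := five
  have hne5 : P5.Nonempty := by
    rw [← Finset.card_pos, hc]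
    norm_num
  refine ⟨fun P T h5 h2 hd => sparse_of_far h5 h2 hd,
    fun P T hT hS hl => ⟨upper hT hl hS, branch_le P T⟩, ⟨?_, ?_⟩, ⟨?_, ?_⟩⟩
  · obtain ⟨T, hT, hl⟩ := exists_min hne5
    exact ⟨P5, by omega, ⟨T, hT, hl, sparse_of_card (by omega) hT⟩, hr⟩
  · rintro x ⟨P, -, ⟨T, hT, hl, hS⟩, rfl⟩
    exact hb P T hT hl hS
  · exact ⟨P5, by omega, by omega, hr⟩
  · rintro x ⟨P, h2, h6, rfl⟩
    obtain ⟨T, hT, hl⟩ := exists_min (P := P) (Finset.card_pos.1 (by omega))
    exact hb P T hT hl (sparse_of_card h6 hT)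

end Pool.Agent.Results.MP_675adf_co.SparseBranching
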